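import Pool.Agent.helper70.FI4.SpecK
import Pool.Agent.helper59.FI.Base
import Pool.Agent.helper58.FI.SpecC

/-!
# Row fk:KHT: degrees and the defect group
-/

set_option autoImplicit false

namespace Pool.Agent.FI4

open Pool.Agent.helper58.DC Pool.Agent.DI Pool.Agent.GR Pool.Agent.OB Pool.Agent.DR Pool.Agent.FI Pool.Agent.FI3

theorem KHT (hB2 : B2_stmt) : KHT_stmt := by
  classical
  intro p M hS G _ _ χ hχ D x hd n hn
  have hχT : χ ∈ IrrOn (⊤ : Subgroup G) := IrrOn_top.2 hχ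
  obtain ⟨⟨n', hn0, hn1, hn2⟩, -, hint, -⟩ := (hB2 G ⊤).2 χ hχT
  have hnn : n = n' := by
    have h : (n : ℂ) = n' := by rw [← hn, hn1]
    exact_mod_cast h
  subst hnn
  have hp := hS.pr
  haveI := Fact.mk hp
  have hcard := hd.card
  unfold pp at hcard
  set a : ℕ := padicValNat p (Nat.card (Cz (⊤ : Subgroup G) x)) with ha
  have hDa : padicValNat p (Nat.card D) = a := by rw [hcard, padicValNat.prime_pow]
  rw [Subgroup.card_top] at hn2
  obtain ⟨m0, hm0⟩ := hn2
  have hGpos : 0 < Nat.card G := Nat.card_pos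
  have hm0' : m0 ≠ 0 := by
    rintro rfl
    rw [mul_zero] at hm0
    omega
  by_contra hlt
  rw [not_le, hDa] at hlt
  -- `p ^ (a + 1)` divides `m0`
  have hval : padicValNat p n + padicValNat p m0 = padicValNat p (Nat.card G) := by
    rw [hm0, padicValNat.mul hn0.ne' hm0']
  have hm1 : p ^ (a + 1) ∣ m0 := by
    rw [padicValNat_dvd_iff]
    right
    omega
  obtain ⟨m1, hm1⟩ := hm1
  have hCpos : 0 < Nat.card (Cz (⊤ : Subgroup G) x) := Nat.card_pos
  obtain ⟨c, hc⟩ : p ^ a ∣ Nat.card (Cz (⊤ : Subgroup G) x) := by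
    rw [ha]
    exact pow_padicValNat_dvd
  have hcp : ¬ p ∣ c := by
    rintro ⟨c', hc'⟩
    have hc0 : c' ≠ 0 := by
      rintro rfl
      rw [hc', mul_zero, mul_zero] at hc
      omega
    have h1 : padicValNat p (Nat.card (Cz (⊤ : Subgroup G) x)) = a + (1 + padicValNat p c') := by
      rw [hc, hc', padicValNat.mul (pow_ne_zero _ hp.ne_zero) (mul_ne_zero hp.ne_zero hc0),
        padicValNat.prime_pow, padicValNat.mul hp.ne_zero hc0, padicValNat.self hp.one_lt]
    omega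
  have hnC : (n : ℂ) ≠ 0 := by exact_mod_cast hn0.ne'
  have hccI : IsIntegral ℤ (cc χ (cls (⊤ : Subgroup G) x)) := cc_cls_int le_rfl hχT x
  have h2 := cc_cls hχT x
  rw [hn, Subgroup.card_top, hm0, hc, hm1] at h2
  push_cast at h2
  have hpC : (p : ℂ) ^ a ≠ 0 := pow_ne_zero _ hS.p_ne
  have h3 : (c : ℂ) * cc χ (cls (⊤ : Subgroup G) x) = (p : ℂ) * (m1 * χ x) := by
    have h4 : ((p : ℂ) ^ a * n) * ((c : ℂ) * cc χ (cls (⊤ : Subgroup G) x)) =
        ((p : ℂ) ^ a * n) * ((p : ℂ) * (m1 * χ x)) := by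
      have e : (n : ℂ) * (χ x / n) = χ x := mul_div_cancel₀ _ hnC
      linear_combination (n : ℂ) * h2 + (n : ℂ) * (p : ℂ) ^ (a + 1) * m1 * e
    exact mul_left_cancel₀ (mul_ne_zero hpC hnC) h4
  have h5 : InM M ((c : ℂ) * cc χ (cls (⊤ : Subgroup G) x)) := by
    rw [h3]
    exact InM.mul_right hS (InM.prime_mem hS)
      ((IntAt.natCast hS m1).mul hS (IntAt.of_isIntegral hS (hint x)))
  apply hd.ne
  rcases InM.or hS (IntAt.natCast hS c) (IntAt.of_isIntegral hS hccI) h5 with h6 | h6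
  · exact absurd ((InM.natCast hS c).1 h6) hcp
  · exact h6

end Pool.Agent.FI4
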